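import Pool.Agent.helper22.WC.Spec

/-!
# Row wc:SLP
-/

set_option autoImplicit false

namespace Pool.Agent.WC

open Pool.Agent.helper58.DC Pool.Agent.DI Pool.Agent.DR

/-- the degrees -/
theorem SLP_deg (hB2 : Pool.Agent.DI.B2_stmt) {G : Type} [Group G] [Finite G] (H : Subgroup G) (p : ℕ)
    [Fact p.Prime] : ∃ f : (G → ℂ) → ℕ, ∀ η ∈ IrrOn H, (∀ c : ℕ, (c : ℂ) * η 1 = Nat.card H ↔ f η = c) ∧
      (∀ d : ℤ, Defect p H η d ↔ (padicValNat p (f η) : ℤ) = d) ∧ f η ≤ Nat.card G := by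
  classical
  have h := fun η (hη : η ∈ IrrOn H) => ((hB2 G H).2 η hη).1
  refine ⟨fun η => if hη : η ∈ IrrOn H then Nat.card H / (h η hη).choose else 0, fun η hη => ?_⟩
  simp only [dif_pos hη]
  obtain ⟨hn, hη1, hd⟩ := (h η hη).choose_spec
  set n := (h η hη).choose with hndef
  have hH : 0 < Nat.card H := Nat.card_pos
  refine ⟨fun c => ?_, fun d => ?_, ?_⟩
  · rw [hη1, Nat.div_eq_iff_eq_mul_left hn hd]
    constructor
    · intro h1
      exact_mod_cast h1.symm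
    · intro h1
      exact_mod_cast h1.symm
  · rw [padicValNat.div_of_dvd hd]
    have hle : padicValNat p n ≤ padicValNat p (Nat.card H) :=
      (padicValNat_dvd_iff_le hH.ne').1 (dvd_trans pow_padicValNat_dvd hd)
    unfold Defect
    constructor
    · rintro ⟨m, hm, hm2⟩
      have e : m = n := by
        have : (m : ℂ) = n := by rw [← hm, hη1]
        exact_mod_cast this
      rw [hm2, e]
      push_cast [Nat.cast_sub hle]
      ring
    · intro h1
      refine ⟨n, hη1, ?_⟩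
      rw [← h1]
      push_cast [Nat.cast_sub hle]
      ring
  · refine (Nat.div_le_self _ _).trans ?_
    exact Nat.le_of_dvd Nat.card_pos (Subgroup.card_subgroup_dvd_card H)

theorem SLP_cnt (hB2 : Pool.Agent.DI.B2_stmt) {G E A : Type} [Group G] [Group E] [Group A] [Finite G] [Finite E]
    (X : Extension G E A) (p : ℕ) [Fact p.Prime] (d : ℤ) (L : Subgroup E) :
    ∑ c ∈ (Finset.range (Nat.card G + 1)).filter (fun c => (padicValNat p c : ℤ) = d),
      Nat.card {η : G → ℂ // η ∈ IrrOn (L.comap X.inc) ∧ (c : ℂ) * η 1 = Nat.card (L.comap X.inc) ∧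
        ∀ e ∈ L, funMap (X.act e) η = η} = cnt X p (fun _ => True) d L := by
  classical
  obtain ⟨f, hf⟩ := SLP_deg hB2 (L.comap X.inc) p
  have hfin : (IrrOn (L.comap X.inc)).Finite := (hB2 G (L.comap X.inc)).1
  set T : Finset (G → ℂ) := hfin.toFinset.filter fun η => ∀ e ∈ L, funMap (X.act e) η = η with hT
  have hmem : ∀ η, η ∈ T ↔ η ∈ IrrOn (L.comap X.inc) ∧ ∀ e ∈ L, funMap (X.act e) η = η := by
    intro η
    rw [hT, Finset.mem_filter, Set.Finite.mem_toFinset]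
  have hcard : ∀ (P : (G → ℂ) → Prop) (s : Finset (G → ℂ)), (∀ η, η ∈ s ↔ P η) →
      Nat.card {η : G → ℂ // P η} = s.card := by
    intro P s hs
    have e : {η : G → ℂ // P η} ≃ s := Equiv.subtypeEquivRight fun η => (hs η).symm
    rw [Nat.card_congr e, Nat.card_eq_fintype_card, Fintype.card_coe]
  have h1 : cnt X p (fun _ => True) d L = (T.filter fun η => (padicValNat p (f η) : ℤ) = d).card := by
    unfold cnt
    refine hcard _ _ fun η => ?_
    rw [Finset.mem_filter, hmem]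
    constructor
    · rintro ⟨⟨ha, hb⟩, hc⟩
      exact ⟨ha, ((hf η ha).2.1 d).2 hc, trivial, hb⟩
    · rintro ⟨ha, hb, _, hc⟩
      exact ⟨⟨ha, hc⟩, ((hf η ha).2.1 d).1 hb⟩
  rw [h1, Finset.card_eq_sum_card_fiberwise (f := f)
    (t := (Finset.range (Nat.card G + 1)).filter fun c => (padicValNat p c : ℤ) = d)]
  · refine Finset.sum_congr rfl fun c hc => ?_
    refine hcard _ _ fun η => ?_
    rw [Finset.mem_filter, Finset.mem_filter, hmem]
    constructor
    · rintro ⟨⟨⟨ha, hb⟩, hc'⟩, hd⟩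
      exact ⟨ha, ((hf η ha).1 c).2 hd, hb⟩
    · rintro ⟨ha, hb, hc'⟩
      have hd := ((hf η ha).1 c).1 hb
      refine ⟨⟨⟨ha, hc'⟩, ?_⟩, hd⟩
      rw [hd]
      exact (Finset.mem_filter.1 hc).2
  · intro η hη
    have h2 := Finset.mem_filter.1 hη
    have h3 := (hmem η).1 h2.1
    refine Finset.mem_coe.2 (Finset.mem_filter.2 ⟨?_, h2.2⟩)
    rw [Finset.mem_range]
    exact Nat.lt_succ_of_le (hf η h3.1).2.2

theorem SLP_zero (hB2 : Pool.Agent.DI.B2_stmt) {G E A : Type} [Group G] [Group E] [Group A] [Finite G] [Finite E]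
    (X : Extension G E A) (c : ℕ) (hc : Nat.card G < c) : mc X c = 0 := by
  unfold mc
  refine finsum_mem_eq_zero_of_forall_eq_zero fun L _ => ?_
  have hp : Fact (Nat.Prime 2) := ⟨Nat.prime_two⟩
  obtain ⟨f, hf⟩ := SLP_deg hB2 (L.comap X.inc) 2
  have h1 : IsEmpty {η : G → ℂ // η ∈ IrrOn (L.comap X.inc) ∧ (c : ℂ) * η 1 = Nat.card (L.comap X.inc) ∧
      ∀ e ∈ L, funMap (X.act e) η = η} := by
    refine ⟨fun η => ?_⟩
    obtain ⟨h2, _, h3⟩ := hf η.1 η.2.1
    have h4 := (h2 c).1 η.2.2.1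
    omega
  have h5 : Nat.card {η : G → ℂ // η ∈ IrrOn (L.comap X.inc) ∧ (c : ℂ) * η 1 = Nat.card (L.comap X.inc) ∧
      ∀ e ∈ L, funMap (X.act e) η = η} = 0 := Nat.card_of_isEmpty
  rw [h5, Nat.cast_zero, mul_zero, mul_zero]

theorem SLP (hB2 : Pool.Agent.DI.B2_stmt) : SLP_stmt := by
  classical
  intro G E A _ _ _ _ _ X p _ d
  have hS : {L : Subgroup E | L ⊔ X.inc.range = ⊤}.Finite := Set.toFinite _
  have h1 : ∑ᶠ c ∈ {c : ℕ | (padicValNat p c : ℤ) = d}, mc X c =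
      ∑ c ∈ (Finset.range (Nat.card G + 1)).filter (fun c => (padicValNat p c : ℤ) = d), mc X c := by
    apply finsum_mem_eq_sum_of_inter_support_eq
    ext c
    simp only [Set.mem_inter_iff, Set.mem_setOf_eq, Function.mem_support, Finset.coe_filter, Finset.mem_range]
    constructor
    · rintro ⟨ha, hb⟩
      refine ⟨⟨?_, ha⟩, hb⟩
      by_contra hcon
      exact hb (SLP_zero hB2 X c (by omega))
    · rintro ⟨⟨_, ha⟩, hb⟩
      exact ⟨ha, hb⟩
  rw [h1]
  unfold mc jSum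
  rw [finsum_mem_eq_finite_toFinset_sum _ hS]
  have h2 : ∀ c : ℕ, ∑ᶠ L ∈ {L : Subgroup E | L ⊔ X.inc.range = ⊤}, mob L * ((Nat.card (L.comap X.inc) : ℤ) *
      Nat.card {η : G → ℂ // η ∈ IrrOn (L.comap X.inc) ∧ (c : ℂ) * η 1 = Nat.card (L.comap X.inc) ∧
        ∀ e ∈ L, funMap (X.act e) η = η}) =
      ∑ L ∈ hS.toFinset, mob L * ((Nat.card (L.comap X.inc) : ℤ) *
      Nat.card {η : G → ℂ // η ∈ IrrOn (L.comap X.inc) ∧ (c : ℂ) * η 1 = Nat.card (L.comap X.inc) ∧
        ∀ e ∈ L, funMap (X.act e) η = η}) := fun c => finsum_mem_eq_finite_toFinset_sum _ hS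
  simp only [h2]
  rw [Finset.sum_comm]
  refine Finset.sum_congr rfl fun L _ => ?_
  rw [← SLP_cnt hB2 X p d L, ← Finset.mul_sum, ← Finset.mul_sum]
  push_cast
  rfl

end Pool.Agent.WC
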